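import Pool.Agent.Lib.MP_a0c355_lc.B12.FinalB

/-! # MP_a0c355_lc, Q1 for d = 4, 6, 12: the Burnside varieties of exponent dividing 12 are G-decidable

The definitions of black-box groups, programs, their probabilistic semantics and G-decidability are
in `Pool/Agent/Lib/MP_a0c355_lc/Model.lean`.

The algorithm.  Let `N = n + m` be the input size (so `|G| ≤ 2^N`) and `K = 40 (N + 2)`.
* Phase A.  Row `0` is the generating tuple, filled up with the identity to length `K`.  For
  `i = 0, …, N` each of the `K` entries of row `i + 1` is, according to a fair coin, a commutator
  `[u, v]`, where `u` and `v` are random subproducts of row `i`, or a conjugate `v h v⁻¹`, where `v` is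
  a random subproduct of row `i` and `h` is a random subproduct of the part of row `i + 1` which is
  already computed.  With probability at least `63/64` row `i` generates the `i`-th term of the
  derived series for all `i`.
* Phase B.  Reject unless all entries of all rows satisfy `x^d = 1` and the last row is trivial.
* Phase C.  Polynomially many times, form the product over all rows `i ≤ N` and all `j < K` of
  `t^e`, where `t` is the entry and `e` is a random exponent with polynomially many bits, and reject
  if its `d`-th power is not the identity.

Groups of exponent dividing `d` are always accepted: they are solvable, as `d` divides 12.  For a
solvable group phase C samples almost uniformly, and after phase B all elements of the rows have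
orders dividing 12, so the group is a group of order `2^a 3^b`.  The main point is the density
theorem (`DensityB.lean`): in a solvable group of order `2^a 3^b ≤ 2^n` which is not of exponent
dividing `d`, the elements with `x^d ≠ 1` have density at least `1 / bndB n`, where `bndB` is a fixed
polynomial.  Besides the corresponding statements for groups of exponent 3 and 4, it rests on a
lemma on small orbits: if a group of exponent dividing 12 acts on an elementary abelian 2-group or
3-group and the product formula for the power of an element of a coset is a nonzero sum over an
orbit, then a subgroup of index at most a fixed power of `n` already gives a nonzero sum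
(`SmallRep.lean`, `SmallTwo.lean`, `SmallOrbit.lean`). -/

/-- For every `d` dividing 12 the class of all groups satisfying `x^d = 1` is G-decidable in the class
of all groups. -/
theorem Pool.Agent.Results.MP_a0c355_lc.BurnsideTwelve.result :
    ∀ d : ℕ, d ∣ 12 → Pool.Agent.MPa0c355.GDecidable (fun G _ => ∀ x : G, x ^ d = 1) :=
  fun d hd => Pool.Agent.MPa0c355.B12.gDecidable_B12 d hd
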