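import Pool.Agent.Lib.MP_a0c355_lc.Wk.FinalW

/-! # MP_a0c355_lc, Q1 for all d, on linear groups and on nilpotent groups of small class

The definitions of black-box groups, programs and their probabilistic semantics are in
`Pool/Agent/Lib/MP_a0c355_lc/Model.lean`.

The algorithm is a random walk.  Let `N = n + m` be the input size (so `|G| ≤ 2^N`), and fill the
generating tuple up with the identity to length `N`.  Start with `x = 1` and repeat `T` times:
multiply `x` by a random subproduct of the generators, and reject if `x^d ≠ 1`.  Here `T` is a
polynomial in `N` which depends only on `d` and `c`.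

Groups with `x^d = 1` for all `x` are always accepted.

* Suppose `φ` is a homomorphism to matrices of degree `D ≤ n^c + c` with `φ(x^d) ≠ 1` for some `x`.  The
  functions `x ↦ φ(x^d)_{ij} - φ(1)_{ij}` lie in a translation invariant space of functions of
  dimension `K = (D^2 + 1)^d`.  Hence there are words of length at most `K` in the generators such
  that from every `x` one of at most `K` words leads to a `y` with `y^d ≠ 1` (`Space.lean`,
  `Coef.lean`).  An energy estimate (`Energy.lean`) shows that the survival probabilities drop by a
  factor `1 - 1/poly` in polynomially many cycles: a function of the walk which loses little energy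
  is almost constant along short words.
* Suppose `φ` is a homomorphism to a group with `γ_(k+1) = 1`, `2^k ≤ n^c + c`, and `φ(x^d) ≠ 1` for some `x`.
  From every state, the walk is after `k` cycles in a `y` with `φ(y^d) ≠ 1` with probability at least
  `2^(-k)`: the subproducts of a list form a cube, `y ↦ φ(y^d)` is a polynomial map of degree at most
  `k` on it, and such a map is nontrivial at no vertex or at a proportion at least `2^(-k)` of the
  vertices (`CubeA.lean`, `CubeB.lean`, `CubeC.lean`). -/

/-- For all `d` and `c` one program, in polynomial time, accepts with probability 1 every black-box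
group satisfying `x^d = 1`, and rejects with probability at least `2/3` every black-box group that has,
for some `x`, a homomorphism `φ` with `φ(x^d) ≠ 1` to matrices of degree at most `n^c + c` over a field
or to a nilpotent group of class at most `k` with `2^k ≤ n^c + c`. -/
theorem Pool.Agent.Results.MP_a0c355_lc.LinearOrNilpotent.result :
    ∀ d c : ℕ, ∃ (P : Pool.Agent.MPa0c355.Cmd) (C : ℕ),
      ∀ (n : ℕ) (B : Pool.Agent.MPa0c355.BBGroup n) (m : ℕ) (s : Fin m → B.Code),
        Subgroup.closure (Set.range fun i => B.val (s i)) = ⊤ →
        (∀ τ ∈ (B.exec P s).support, τ.time ≤ C * (n + m + 1) ^ C) ∧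
        ((∀ x : B.G, x ^ d = 1) → ((B.exec P s).map fun τ => τ.bv 0) true = 1) ∧
        (Pool.Agent.MPa0c355.Wk.Detected d (n ^ c + c) B.G →
          2 / 3 ≤ ((B.exec P s).map fun τ => τ.bv 0) false) :=
  fun d c => Pool.Agent.MPa0c355.Wk.walk_decides d c
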